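import Mathlib

/-! MP_2093e0_al: a ring is strongly weakly nil-clean iff it is semi-potent and WUU. -/

namespace Pool.Agent.Results.MP_2093e0_al.SemiPotentWUU

/-- Strongly nil-clean element. -/
def StronglyNilClean {R : Type*} [Ring R] (a : R) : Prop :=
  ∃ e b : R, e * e = e ∧ IsNilpotent b ∧ e * b = b * e ∧ a = e + b

/-- Strongly weakly nil-clean ring. -/
def StronglyWeaklyNilClean (R : Type*) [Ring R] : Prop :=
  ∀ a : R, StronglyNilClean a ∨ StronglyNilClean (-a)

/-- Weakly UU ring: every unit is `n + 1` or `n - 1` with `n` nilpotent. -/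
def WUU (R : Type*) [Ring R] : Prop :=
  ∀ u : R, IsUnit u → ∃ n : R, IsNilpotent n ∧ (u = n + 1 ∨ u = n - 1)

/-- Semi-potent ring: every right ideal not contained in the Jacobson radical contains a
nonzero idempotent. -/
def SemiPotent (R : Type*) [Ring R] : Prop :=
  ∀ I : AddSubgroup R, (∀ x ∈ I, ∀ r : R, x * r ∈ I) → ¬ (∀ x ∈ I, x ∈ Ring.jacobson R) →
    ∃ e ∈ I, e * e = e ∧ e ≠ 0

section reduced

variable {S : Type*} [Ring S]

/-- A WUU ring in which every nonzero right ideal has a nonzero idempotent is reduced. -/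
theorem sq_zero (hSP : ∀ x : S, x ≠ 0 → ∃ r, (x * r) * (x * r) = x * r ∧ x * r ≠ 0)
    (hW : WUU S) (a : S) (ha : a * a = 0) : a = 0 := by
  by_contra hne
  obtain ⟨s0, hs1, hs2⟩ := hSP a hne
  obtain ⟨s, hs⟩ : ∃ s, s = s0 * (a * s0) := ⟨_, rfl⟩
  obtain ⟨e, he⟩ : ∃ e, e = a * s := ⟨_, rfl⟩
  have he0 : e = a * s0 := by rw [he, hs, ← mul_assoc, hs1]
  have hee : e * e = e := by rw [he0, hs1]
  have hne' : e ≠ 0 := by rw [he0]; exact hs2
  have hse : s * e = s := by rw [he0, hs, mul_assoc s0, hs1]
  obtain ⟨f, hf⟩ : ∃ f, f = s * a := ⟨_, rfl⟩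
  have hff : f * f = f := by
    rw [hf]
    calc s * a * (s * a) = s * (a * s) * a := by simp only [mul_assoc]
      _ = s * a := by rw [← he, hse]
  have hfa : f * a = 0 := by rw [hf, mul_assoc, ha, mul_zero]
  have hfe : f * e = 0 := by rw [he, ← mul_assoc, hfa, zero_mul]
  have haf : a * f = e * a := by rw [hf, he, mul_assoc]
  have hfs : f * s = s * e := by rw [hf, he, mul_assoc]
  obtain ⟨g, hg⟩ : ∃ g, g = e - e * f := ⟨_, rfl⟩
  have hge : g * e = e := by rw [hg, sub_mul, hee, mul_assoc, hfe, mul_zero, sub_zero]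
  have heg : e * g = g := by rw [hg, mul_sub, hee, ← mul_assoc, hee]
  have hgf : g * f = 0 := by rw [hg, sub_mul, mul_assoc, hff, sub_self]
  have hfg : f * g = 0 := by rw [hg, mul_sub, hfe, ← mul_assoc, hfe, zero_mul, sub_self]
  have hgg : g * g = g := by
    nth_rewrite 2 [hg]
    rw [mul_sub, ← mul_assoc, hge, hg]
  have hg0 : g ≠ 0 := by
    intro h0
    apply hne'
    rw [← hge, h0, zero_mul]
  obtain ⟨al, hal⟩ : ∃ al, al = g * a * f := ⟨_, rfl⟩
  obtain ⟨be, hbe⟩ : ∃ be, be = f * s * g := ⟨_, rfl⟩
  have hsga : s * g * a = f := by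
    rw [hg, mul_sub, sub_mul, hse, ← mul_assoc, hse, mul_assoc s f a, hfa, mul_zero, sub_zero, hf]
  have h1 : al * be = g := by
    calc al * be = g * (a * (f * f) * s) * g := by rw [hal, hbe]; simp only [mul_assoc]
      _ = g * (e * (a * s)) * g := by rw [hff, haf]; simp only [mul_assoc]
      _ = g := by rw [← he, hee, hge, heg]
  have h2 : be * al = f := by
    calc be * al = f * (s * (g * g) * a) * f := by rw [hal, hbe]; simp only [mul_assoc]
      _ = f := by rw [hgg, hsga, hff, hff]
  have h3 : g * al = al := by rw [hal]; simp only [← mul_assoc]; rw [hgg]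
  have h4 : al * f = al := by rw [hal, mul_assoc, hff]
  have h5 : f * be = be := by rw [hbe]; simp only [← mul_assoc]; rw [hff]
  have h6 : be * g = be := by rw [hbe, mul_assoc, hgg]
  have h7 : f * al = 0 := by rw [← h3, ← mul_assoc, hfg, zero_mul]
  have h8 : al * g = 0 := by rw [← h4, mul_assoc, hfg, mul_zero]
  have h9 : g * be = 0 := by rw [← h5, ← mul_assoc, hgf, zero_mul]
  have h10 : be * f = 0 := by rw [← h6, mul_assoc, hgf, mul_zero]
  have h11 : al * al = 0 := by
    nth_rewrite 1 [← h4]
    rw [mul_assoc, h7, mul_zero]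
  have h12 : be * be = 0 := by
    nth_rewrite 1 [← h6]
    rw [mul_assoc, h9, mul_zero]
  -- the unit
  have hU : IsUnit (1 - f + al + be) := by
    refine ⟨⟨1 - f + al + be, 1 - g - f - f + al + be, ?_, ?_⟩, rfl⟩
    · simp only [mul_sub, sub_mul, mul_add, add_mul, h1, h2, h3, h4, h5, h6, h7, h8, h9, h10,
        h11, h12, hff, hgf, hfg, hgg, mul_one, one_mul]
      abel
    · simp only [mul_sub, sub_mul, mul_add, add_mul, h1, h2, h3, h4, h5, h6, h7, h8, h9, h10,
        h11, h12, hff, hgf, hfg, hgg, mul_one, one_mul]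
      abel
  have key : ∀ n m : S, IsNilpotent n → n * m = g + f → m * n = g + f → False := by
    intro n m hn hnm hmn
    have hc : Commute n m := by rw [commute_iff_eq, hnm, hmn]
    have hnil : IsNilpotent (n * m) := hc.isNilpotent_mul_right hn
    rw [hnm] at hnil
    have hidem : (g + f) * (g + f) = g + f := by
      simp only [mul_add, add_mul, hff, hgf, hfg, hgg]
      abel
    have h0 : g + f = 0 := by
      obtain ⟨k, hk⟩ := hnil
      have : ∀ k, (g + f) ^ (k + 1) = g + f := by
        intro k
        induction k with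
        | zero => simp
        | succ k ih => rw [pow_succ, ih, hidem]
      cases k with
      | zero =>
        rw [pow_zero] at hk
        calc g + f = (g + f) * 1 := (mul_one _).symm
          _ = 0 := by rw [hk, mul_zero]
      | succ k => rw [← this k, hk]
    apply hg0
    calc g = g * (g + f) := by rw [mul_add, hgg, hgf, add_zero]
      _ = 0 := by rw [h0, mul_zero]
  obtain ⟨n, hn, h | h⟩ := hW _ hU
  · have hn' : n = al + be - f := by
      have : n = (1 - f + al + be) - 1 := by rw [h]; abel
      rw [this]; abel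
    refine key n (g + al + be) hn ?_ ?_
    · rw [hn']
      simp only [mul_sub, sub_mul, mul_add, add_mul, h1, h2, h3, h4, h5, h6, h7, h8, h9, h10,
        h11, h12, hff, hgf, hfg, hgg]
      abel
    · rw [hn']
      simp only [mul_sub, sub_mul, mul_add, add_mul, h1, h2, h3, h4, h5, h6, h7, h8, h9, h10,
        h11, h12, hff, hgf, hfg, hgg]
      abel
  · -- n = 1 - f + al + be + 1
    have hn' : n = 1 + 1 - f + al + be := by
      have : n = (1 - f + al + be) + 1 := by rw [h]; abel
      rw [this]; abel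
    have hE : (g + f) * (g + f) = g + f := by
      simp only [mul_add, add_mul, hff, hgf, hfg, hgg]
      abel
    have hcomm : Commute n (g + f) := by
      rw [commute_iff_eq, hn']
      simp only [mul_sub, sub_mul, mul_add, add_mul, h1, h2, h3, h4, h5, h6, h7, h8, h9, h10,
        h11, h12, hff, hgf, hfg, hgg, mul_one, one_mul]
      abel
    have hn2 : IsNilpotent (n * (g + f)) := hcomm.isNilpotent_mul_right hn
    refine key _ (g - al - be + f + f) hn2 ?_ ?_
    · rw [hn']
      simp only [mul_sub, sub_mul, mul_add, add_mul, h1, h2, h3, h4, h5, h6, h7, h8, h9, h10,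
        h11, h12, hff, hgf, hfg, hgg, mul_one, one_mul, zero_mul, mul_zero]
      abel
    · rw [hn']
      simp only [mul_sub, sub_mul, mul_add, add_mul, h1, h2, h3, h4, h5, h6, h7, h8, h9, h10,
        h11, h12, hff, hgf, hfg, hgg, mul_one, one_mul, zero_mul, mul_zero]
      abel

theorem nil_zero (h2 : ∀ a : S, a * a = 0 → a = 0) (a : S) (ha : IsNilpotent a) : a = 0 := by
  have : IsReduced S := by
    refine ⟨fun x hx => ?_⟩
    obtain ⟨n, hn⟩ := hx
    induction n using Nat.strong_induction_on with
    | _ n ih =>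
      rcases Nat.lt_or_ge n 2 with h | h
      · interval_cases n
        · rw [pow_zero] at hn
          calc x = x * 1 := (mul_one x).symm
            _ = 0 := by rw [hn, mul_zero]
        · simpa using hn
      · refine ih (n - 1) (by omega) (h2 _ ?_)
        rw [← pow_add]
        have : n - 1 + (n - 1) = n + (n - 2) := by omega
        rw [this, pow_add, hn, zero_mul]
  exact ha.eq_zero

/-- Structure of the semisimple quotient. -/
theorem idem_or (hSP : ∀ x : S, x ≠ 0 → ∃ r, (x * r) * (x * r) = x * r ∧ x * r ≠ 0)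
    (hW : WUU S) (a : S) : a * a = a ∨ a * a = -a := by
  have hsq := sq_zero hSP hW
  have hnil := nil_zero hsq
  -- units
  have hunit : ∀ u : S, IsUnit u → u = 1 ∨ u = -1 := by
    intro u hu
    obtain ⟨n, hn, h | h⟩ := hW u hu
    · left
      rw [h, hnil n hn, zero_add]
    · right
      rw [h, hnil n hn, zero_sub]
  -- idempotents are central
  have hcen : ∀ e : S, e * e = e → ∀ x : S, e * x = x * e := by
    intro e he x
    have h1 : e * x - e * x * e = 0 := by
      apply hsq
      have h1 : (1 - e) * e = 0 := by rw [sub_mul, one_mul, he, sub_self]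
      calc (e * x - e * x * e) * (e * x - e * x * e) = e * x * ((1 - e) * e) * x * (1 - e) := by
            noncomm_ring
        _ = 0 := by rw [h1]; simp
    have h2 : x * e - e * x * e = 0 := by
      apply hsq
      have h1 : e * (1 - e) = 0 := by rw [mul_sub, mul_one, he, sub_self]
      calc (x * e - e * x * e) * (x * e - e * x * e) = (1 - e) * x * (e * (1 - e)) * x * e := by
            noncomm_ring
        _ = 0 := by rw [h1]; simp
    rw [sub_eq_zero] at h1 h2
    rw [h1, h2]
  -- cubes
  have hcube : ∀ a : S, a = a * a * a := by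
    intro a
    by_contra hne
    have hx : a - a * a * a ≠ 0 := sub_ne_zero.2 hne
    obtain ⟨r, hr1, hr2⟩ := hSP _ hx
    obtain ⟨e, he⟩ : ∃ e, e = (a - a * a * a) * r := ⟨_, rfl⟩
    rw [← he] at hr1 hr2
    obtain ⟨y, hy⟩ : ∃ y, y = (1 - a * a) * r := ⟨_, rfl⟩
    have hay : a * y = e := by rw [he, hy]; noncomm_ring
    have hc := hcen e hr1
    -- p = y a e is idempotent
    obtain ⟨p, hp⟩ : ∃ p, p = y * e * a := ⟨_, rfl⟩
    have hpp : p * p = p := by
      rw [hp]
      calc y * e * a * (y * e * a) = y * e * (a * y) * e * a := by simp only [mul_assoc]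
        _ = y * (e * e * e) * a := by rw [hay]; simp only [mul_assoc]
        _ = y * e * a := by rw [hr1, hr1]
    have hep : e * p = p := by
      rw [hp, ← mul_assoc, ← mul_assoc, hc y, mul_assoc y e e, hr1]
    have hpe : p = e := by
      have h1 : e * a * p = e * a := by
        calc e * a * p = e * (a * y) * e * a := by rw [hp]; simp only [mul_assoc]
          _ = e * a := by rw [hay, hr1, hr1]
      have h2 := hcen p hpp
      calc p = e * p := hep.symm
        _ = p * e := hc p
        _ = p * (e * (a * y)) := by rw [hay, hr1]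
        _ = p * (e * a) * y := by simp only [mul_assoc]
        _ = e * a * p * y := by rw [h2 (e * a)]
        _ = e * a * y := by rw [h1]
        _ = e := by rw [mul_assoc, hay, hr1]
    have hyea : y * e * a = e := by rw [← hp, hpe]
    have hU : IsUnit (e * a + (1 - e)) := by
      have hc1 := hc a
      have hc2 := hc y
      refine ⟨⟨e * a + (1 - e), y * e + (1 - e), ?_, ?_⟩, rfl⟩
      · have e1 : e * a * (y * e) = e := by
          rw [mul_assoc, ← mul_assoc a, hay, ← mul_assoc, hr1, hr1]
        have e2 : e * a * e = e * a := by rw [mul_assoc, ← hc1, ← mul_assoc, hr1]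
        have e3 : e * (y * e) = y * e := by rw [← mul_assoc, hc2, mul_assoc, hr1]
        simp only [mul_add, add_mul, mul_sub, sub_mul, e1, e2, e3, hr1, mul_one, one_mul]
        abel
      · have e1 : y * e * (e * a) = e := by
          rw [mul_assoc, ← mul_assoc e, hr1, ← mul_assoc, hyea]
        have e2 : e * (e * a) = e * a := by rw [← mul_assoc, hr1]
        have e3 : y * e * e = y * e := by rw [mul_assoc, hr1]
        simp only [mul_add, add_mul, mul_sub, sub_mul, e1, e2, e3, hr1, mul_one, one_mul]
        abel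
    have hea : e * a = e ∨ e * a = - e := by
      have h0 : e * (e * a + (1 - e)) = e * a := by
        rw [mul_add, mul_sub, ← mul_assoc, hr1, mul_one, sub_self, add_zero]
      rcases hunit _ hU with h | h
      · left
        rw [← h0, h, mul_one]
      · right
        rw [← h0, h, mul_neg, mul_one]
    have hzero : e * (a - a * a * a) = 0 := by
      rw [mul_sub]
      rcases hea with h | h
      · have : e * (a * a * a) = e := by
          rw [← mul_assoc, ← mul_assoc, h, h, h]
        rw [this, h, sub_self]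
      · have : e * (a * a * a) = - e := by
          rw [← mul_assoc, ← mul_assoc, h, neg_mul, h, neg_neg, h]
        rw [this, h, sub_self]
    apply hr2
    calc e = e * ((a - a * a * a) * r) := by rw [← he, hr1]
      _ = 0 := by rw [← mul_assoc, hzero, zero_mul]
  have h3 : a * a * a = a := (hcube a).symm
  have h4 : a * (a * a) = a := by rw [← mul_assoc]; exact h3
  have h5 : a * a * (a * a) = a * a := by rw [← mul_assoc, h3]
  have hu1 : (a + (1 - a * a)) * (a + (1 - a * a)) = 1 := by
    simp only [mul_add, add_mul, mul_sub, sub_mul, h3, h4, h5, mul_one, one_mul]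
    abel
  have hU : IsUnit (a + (1 - a * a)) := ⟨⟨_, _, hu1, hu1⟩, rfl⟩
  rcases hunit _ hU with h | h
  · left
    have : a - a * a = 0 := by
      calc a - a * a = (a + (1 - a * a)) - 1 := by abel
        _ = 0 := by rw [h, sub_self]
    exact (sub_eq_zero.1 this).symm
  · right
    -- a = a a - 2
    have h6 : a = a * a - 1 - 1 := by
      calc a = (a + (1 - a * a)) + a * a - 1 := by abel
        _ = a * a - 1 - 1 := by rw [h]; abel
    have h7 : a * a * a = a * a * (a * a - 1 - 1) := by
      nth_rewrite 3 [h6]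
      rfl
    rw [mul_sub, mul_sub, h5, mul_one, h3] at h7
    have h8 : a = - (a * a) := by
      calc a = a * a - a * a - a * a := h7
        _ = - (a * a) := by abel
    nth_rewrite 3 [h8]
    rw [neg_neg]

end reduced

open Polynomial

variable {R : Type*} [Ring R]

theorem isUnit_one_add (j : R) (hj : j ∈ Ring.jacobson R) : IsUnit (1 + j) := by
  have hleft : ∀ j ∈ Ring.jacobson R, ∃ z, z * (1 + j) = 1 := by
    intro j hj
    rw [← Ideal.jacobson_bot] at hj
    obtain ⟨z, hz⟩ := Ideal.mem_jacobson_iff.1 hj 1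
    refine ⟨z, ?_⟩
    rw [Ideal.mem_bot, mul_one, sub_eq_zero] at hz
    rw [mul_add, mul_one, add_comm]
    exact hz
  obtain ⟨z, hz⟩ := hleft j hj
  have hz' : z = 1 + (- (z * j)) := by
    rw [mul_add, mul_one] at hz
    rw [← hz]
    abel
  obtain ⟨w, hw⟩ := hleft (-(z * j)) (neg_mem (Ideal.mul_mem_left _ z hj))
  rw [← hz'] at hw
  -- w z = 1 and z (1 + j) = 1
  have : w = 1 + j := by
    calc w = w * (z * (1 + j)) := by rw [hz, mul_one]
      _ = 1 + j := by rw [← mul_assoc, hw, one_mul]
  rw [this] at hw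
  exact ⟨⟨1 + j, z, hw, hz⟩, rfl⟩

theorem mem_jac_of (x : R) (h : ∀ y, ∃ z, z * (1 + y * x) = 1) : x ∈ Ring.jacobson R := by
  rw [← Ideal.jacobson_bot, Ideal.mem_jacobson_iff]
  intro y
  obtain ⟨z, hz⟩ := h y
  refine ⟨z, ?_⟩
  rw [Ideal.mem_bot, ← hz]
  noncomm_ring

theorem jac_nil (hW : WUU R) (j : R) (hj : j ∈ Ring.jacobson R) : IsNilpotent j := by
  obtain ⟨n, hn, h | h⟩ := hW _ (isUnit_one_add j hj)
  · have : j = n := by
      calc j = (1 + j) - 1 := by abel
        _ = n := by rw [h]; abel
    rw [this]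
    exact hn
  · have hn2 : n = 2 + j := by
      calc n = (n - 1) + 1 := by abel
        _ = 2 + j := by rw [← h, ← one_add_one_eq_two]; abel
    obtain ⟨k, hk⟩ := hn
    have h2k : (2 : R) ^ k ∈ Ring.jacobson R := by
      have h0 : Ideal.Quotient.mk (Ring.jacobson R) ((2 : R) ^ k) = 0 := by
        have hj0 : Ideal.Quotient.mk (Ring.jacobson R) j = 0 := Ideal.Quotient.eq_zero_iff_mem.2 hj
        have : Ideal.Quotient.mk (Ring.jacobson R) (n ^ k) = 0 := by rw [hk, map_zero]
        rw [hn2, map_pow, map_add, hj0, add_zero, ← map_pow] at this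
        exact this
      exact Ideal.Quotient.eq_zero_iff_mem.1 h0
    have hcom : ∀ y : R, Commute y 2 := fun y => Commute.ofNat_right y 2
    have h2 : (2 : R) ∈ Ring.jacobson R := by
      apply mem_jac_of
      intro y
      obtain ⟨x, hx⟩ : ∃ x, x = - (y * 2) := ⟨_, rfl⟩
      have hxk : x ^ k ∈ Ring.jacobson R := by
        rw [hx, neg_pow, (hcom y).mul_pow, ← mul_assoc]
        exact Ideal.mul_mem_left _ _ h2k
      obtain ⟨v, hv⟩ := isUnit_one_add _ (neg_mem hxk)
      have hgs := geom_sum_mul x k
      refine ⟨(v⁻¹ : Rˣ) * (∑ i ∈ Finset.range k, x ^ i), ?_⟩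
      have e1 : (1 + y * 2) = - (x - 1) := by rw [hx]; abel
      rw [e1, mul_assoc, mul_neg, hgs]
      have e2 : -(x ^ k - 1) = (v : R) := by rw [hv]; abel
      rw [e2, Units.inv_mul]
    have h2nil : IsNilpotent (2 : R) := by
      obtain ⟨m, hm, h' | h'⟩ := hW _ (isUnit_one_add 2 h2)
      · have : (2 : R) = m := by
          calc (2 : R) = (1 + 2) - 1 := by abel
            _ = m := by rw [h']; abel
        rw [this]
        exact hm
      · have : m = 2 * 2 := by
          calc m = (m - 1) + 1 := by abel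
            _ = 2 * 2 := by
              rw [← h', ← one_add_one_eq_two, mul_add, mul_one]
              abel
        rw [this] at hm
        obtain ⟨l, hl⟩ := hm
        refine ⟨l + l, ?_⟩
        rw [(Commute.refl (2 : R)).mul_pow, ← pow_add] at hl
        exact hl
    have hjn : j = n - 2 := by rw [hn2]; abel
    rw [hjn]
    exact (hcom n).isNilpotent_sub ⟨k, hk⟩ h2nil

/-- Lifting: if `a - a^2` is nilpotent then `a` is strongly nil-clean. -/
theorem snc_of (a : R) (h : IsNilpotent (a * (1 - a))) :
    ∃ e ∈ {e : R | ∃ r, e = a * r}, e * e = e ∧ ∃ b, IsNilpotent b ∧ e * b = b * e ∧ a = e + b := by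
  obtain ⟨N, hN⟩ := h
  have hN' : (a * (1 - a)) ^ (N + 1) = 0 := by rw [pow_succ, hN, zero_mul]
  have hcop : IsCoprime ((X : ℤ[X]) ^ (N + 1)) ((1 - X) ^ (N + 1)) := by
    apply IsCoprime.pow
    exact ⟨1, 1, by ring⟩
  obtain ⟨P, Q, hPQ⟩ := hcop
  let φ : ℤ[X] →ₐ[ℤ] R := aeval a
  have hφX : φ X = a := aeval_X a
  have hφc : ∀ p q, φ p * φ q = φ q * φ p := fun p q => by rw [← map_mul, mul_comm, map_mul]
  obtain ⟨f, hf⟩ : ∃ f, f = φ (P * X ^ (N + 1)) := ⟨_, rfl⟩
  have hf1 : f = 1 - φ (Q * (1 - X) ^ (N + 1)) := by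
    rw [hf, eq_sub_iff_add_eq, ← map_add, hPQ, map_one]
  have hff : f * f = f := by
    have e1 : f * f = f - f * φ (Q * (1 - X) ^ (N + 1)) := by
      nth_rewrite 2 [hf1]
      rw [mul_sub, mul_one]
    have e2 : f * φ (Q * (1 - X) ^ (N + 1)) = 0 := by
      rw [hf, ← map_mul]
      have : (P * X ^ (N + 1)) * (Q * (1 - X) ^ (N + 1)) =
          (P * Q) * (X * (1 - X)) ^ (N + 1) := by rw [mul_pow]; ring
      have e3 : φ ((X * (1 - X)) ^ (N + 1)) = 0 := by
        rw [map_pow, map_mul, map_sub, map_one, hφX, hN']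
      rw [this, map_mul, e3, mul_zero]
    rw [e1, e2, sub_zero]
  -- divisibility of X - P X^(N+1) by X (1 - X)
  have hdvd : ∃ T : ℤ[X], X - P * X ^ (N + 1) = T * (X * (1 - X)) := by
    have h1 : (X - 1 : ℤ[X]) ∣ 1 - P * X ^ N := by
      have : (X - 1 : ℤ[X]) = X - C 1 := by simp
      rw [this, dvd_iff_isRoot]
      have h := congrArg (fun p => eval 1 p) hPQ
      simp at h
      simp [IsRoot, h]
    obtain ⟨T, hT⟩ := h1
    refine ⟨-T, ?_⟩
    have : X - P * X ^ (N + 1) = X * (1 - P * X ^ N) := by ring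
    rw [this, hT]
    ring
  obtain ⟨T, hT⟩ := hdvd
  refine ⟨f, ⟨φ (P * X ^ N), ?_⟩, hff, a - f, ?_, ?_, by abel⟩
  · have e1 : a * φ (P * X ^ N) = φ (X * (P * X ^ N)) := by rw [map_mul φ X, hφX]
    rw [hf, e1]
    congr 1
    ring
  · have : a - f = φ T * (a * (1 - a)) := by
      rw [hf]
      have this : φ (X - P * X ^ (N + 1)) = φ (T * (X * (1 - X))) := by rw [hT]
      rw [map_sub, map_mul φ T, map_mul φ X, map_sub, map_one, hφX] at this
      exact this
    rw [this]
    have hc : Commute (φ T) (a * (1 - a)) := by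
      have : a * (1 - a) = φ (X * (1 - X)) := by rw [map_mul, map_sub, map_one, hφX]
      rw [this]
      exact hφc _ _
    exact hc.isNilpotent_mul_left ⟨N, hN⟩
  · have hc : f * a = a * f := by
      have := hφc (P * X ^ (N + 1)) X
      rw [hφX, ← hf] at this
      exact this
    rw [mul_sub, sub_mul, hc]

theorem snc_nil (a : R) (h : StronglyNilClean a) : IsNilpotent (a * (1 - a)) := by
  obtain ⟨e, b, he, hb, hc, rfl⟩ := h
  have hcb : Commute e b := hc
  have : (e + b) * (1 - (e + b)) = b * (1 - e - e - b) := by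
    have : (e + b) * (1 - (e + b)) = e - e * e - e * b + b - b * e - b * b := by noncomm_ring
    rw [this, he, hc]
    noncomm_ring
  rw [this]
  refine Commute.isNilpotent_mul_right ?_ hb
  exact ((Commute.one_right b).sub_right hcb.symm |>.sub_right hcb.symm).sub_right
    (Commute.refl b)

theorem snc_unit (u : R) (hu : IsUnit u) (h : StronglyNilClean u) : ∃ b, IsNilpotent b ∧
    u = b + 1 := by
  obtain ⟨e, b, he, hb, hc, hub⟩ := h
  refine ⟨b, hb, ?_⟩
  have heu : e = u - b := by rw [hub]; abel
  have hcub : Commute u b := by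
    rw [hub]
    exact Commute.add_left hc (Commute.refl b)
  have hunit : IsUnit e := by
    rw [heu]
    have : IsUnit (u + (-b)) := by
      apply IsNilpotent.isUnit_add_left_of_commute
      · exact hb.neg
      · exact hu
      · exact (hcub.symm).neg_left
    rwa [← sub_eq_add_neg] at this
  have he1 : e = 1 := by
    obtain ⟨v, rfl⟩ := hunit
    have := congrArg (fun x : R => ((v⁻¹ : Rˣ) : R) * x) he
    simpa using this
  rw [hub, he1, add_comm]

/-- A ring is strongly weakly nil-clean if and only if it is semi-potent and WUU. -/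
theorem result (R : Type*) [Ring R] :
    StronglyWeaklyNilClean R ↔ (SemiPotent R ∧ WUU R) := by
  constructor
  · intro h
    refine ⟨?_, ?_⟩
    · intro I hI hJ
      by_contra hcon
      push Not at hcon
      apply hJ
      intro x hx
      have hnil : ∀ r, IsNilpotent (x * r) := by
        intro r
        have hxr : x * r ∈ I := hI x hx r
        rcases h (x * r) with h1 | h1
        · obtain ⟨e, ⟨s, hs⟩, he, b, hb, _, hab⟩ := snc_of _ (snc_nil _ h1)
          have he0 : e = 0 := hcon e (hs ▸ hI _ hxr s) he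
          rw [hab, he0, zero_add]
          exact hb
        · obtain ⟨e, ⟨s, hs⟩, he, b, hb, _, hab⟩ := snc_of _ (snc_nil _ h1)
          have he0 : e = 0 := hcon e (hs ▸ hI _ (neg_mem hxr) s) he
          have : x * r = - b := by
            rw [← neg_neg (x * r), hab, he0, zero_add]
          rw [this]
          exact hb.neg
      apply mem_jac_of
      intro y
      have hyx : IsNilpotent (y * x) := by
        obtain ⟨k, hk⟩ := hnil y
        refine ⟨k + 1, ?_⟩
        have : ∀ k, (y * x) ^ (k + 1) = y * (x * y) ^ k * x := by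
          intro k
          induction k with
          | zero => simp
          | succ k ih =>
            rw [pow_succ, ih, pow_succ]
            simp only [mul_assoc]
        rw [this, hk, mul_zero, zero_mul]
      obtain ⟨v, hv⟩ := hyx.isUnit_one_add
      refine ⟨(v⁻¹ : Rˣ), ?_⟩
      rw [← hv, Units.inv_mul]
    · intro u hu
      rcases h u with h1 | h1
      · obtain ⟨b, hb, h2⟩ := snc_unit u hu h1
        exact ⟨b, hb, Or.inl h2⟩
      · obtain ⟨b, hb, h2⟩ := snc_unit (-u) hu.neg h1
        refine ⟨-b, hb.neg, Or.inr ?_⟩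
        rw [← neg_neg u, h2]
        abel
  · rintro ⟨hSP, hW⟩ a
    have hJn := jac_nil hW
    let J := Ring.jacobson R
    let π := Ideal.Quotient.mk J
    have hπ : Function.Surjective π := Ideal.Quotient.mk_surjective
    have hker : ∀ x, π x = 0 ↔ x ∈ J := fun x => Ideal.Quotient.eq_zero_iff_mem
    have hidJ : ∀ e : R, e * e = e → e ∈ J → e = 0 := by
      intro e he heJ
      obtain ⟨k, hk⟩ := hJn e heJ
      have : ∀ k, e ^ (k + 1) = e := by
        intro k
        induction k with
        | zero => simp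
        | succ k ih => rw [pow_succ, ih, he]
      rw [← this k, pow_succ, hk, zero_mul]
    have hunit : ∀ x : R, IsUnit (π x) → IsUnit x := by
      intro x hx
      obtain ⟨⟨p, q, hpq, hqp⟩, hp⟩ := hx
      obtain ⟨y, rfl⟩ := hπ q
      have hp' : p = π x := hp
      rw [hp', ← map_mul] at hpq hqp
      have h1 : IsUnit (x * y) := by
        have : x * y - 1 ∈ J := by
          rw [← hker, map_sub, hpq, map_one, sub_self]
        have := isUnit_one_add _ this
        rwa [add_sub_cancel] at this
      have h2 : IsUnit (y * x) := by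
        have : y * x - 1 ∈ J := by
          rw [← hker, map_sub, hqp, map_one, sub_self]
        have := isUnit_one_add _ this
        rwa [add_sub_cancel] at this
      obtain ⟨v, hv⟩ := h1
      obtain ⟨w, hw⟩ := h2
      have e1 : x * (y * (v⁻¹ : Rˣ)) = 1 := by rw [← mul_assoc, ← hv, Units.mul_inv]
      have e2 : ((w⁻¹ : Rˣ) * y) * x = 1 := by rw [mul_assoc, ← hw, Units.inv_mul]
      have e3 : (w⁻¹ : Rˣ) * y = y * (v⁻¹ : Rˣ) := by
        calc (w⁻¹ : Rˣ) * y = ((w⁻¹ : Rˣ) * y) * (x * (y * (v⁻¹ : Rˣ))) := by rw [e1, mul_one]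
          _ = y * (v⁻¹ : Rˣ) := by rw [← mul_assoc, e2, one_mul]
      rw [e3] at e2
      exact ⟨⟨x, y * (v⁻¹ : Rˣ), e1, e2⟩, rfl⟩
    have hW' : WUU (R ⧸ J) := by
      intro u hu
      obtain ⟨x, rfl⟩ := hπ u
      obtain ⟨n, hn, h | h⟩ := hW x (hunit x hu)
      · exact ⟨π n, hn.map π, Or.inl (by rw [h, map_add, map_one])⟩
      · exact ⟨π n, hn.map π, Or.inr (by rw [h, map_sub, map_one])⟩
    have hSP' : ∀ x : R ⧸ J, x ≠ 0 → ∃ r, (x * r) * (x * r) = x * r ∧ x * r ≠ 0 := by
      intro x hx
      obtain ⟨x, rfl⟩ := hπ x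
      have hxJ : x ∉ J := fun h => hx ((hker x).2 h)
      let I : AddSubgroup R :=
        { carrier := {z | ∃ r, z = x * r}
          zero_mem' := ⟨0, by simp⟩
          add_mem' := by
            rintro _ _ ⟨r, rfl⟩ ⟨s, rfl⟩
            exact ⟨r + s, by rw [mul_add]⟩
          neg_mem' := by
            rintro _ ⟨r, rfl⟩
            exact ⟨-r, by rw [mul_neg]⟩ }
      obtain ⟨e, ⟨r, hr⟩, he, he0⟩ := hSP I (by
        rintro _ ⟨r, rfl⟩ s
        exact ⟨r * s, by rw [mul_assoc]⟩) (by
        intro h
        exact hxJ (h x ⟨1, by rw [mul_one]⟩))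
      refine ⟨π r, ?_, ?_⟩
      · rw [← map_mul, ← hr, ← map_mul, he]
      · rw [← map_mul, ← hr]
        intro h
        exact he0 (hidJ e he ((hker e).1 h))
    rcases idem_or hSP' hW' (π a) with h | h
    · left
      have : a * (1 - a) ∈ J := by
        rw [← hker, mul_sub, mul_one, map_sub, map_mul, h, sub_self]
      obtain ⟨e, _, he, b, hb, hc, hab⟩ := snc_of a (hJn _ this)
      exact ⟨e, b, he, hb, hc, hab⟩
    · right
      have : (-a) * (1 - (-a)) ∈ J := by
        rw [← hker, map_mul, map_sub, map_neg, map_one, mul_sub, mul_one, neg_mul_neg, h]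
        abel
      obtain ⟨e, _, he, b, hb, hc, hab⟩ := snc_of (-a) (hJn _ this)
      exact ⟨e, b, he, hb, hc, hab⟩

end Pool.Agent.Results.MP_2093e0_al.SemiPotentWUU
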